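import Pool.Agent.Helper98.WF.St

set_option autoImplicit false

/-! Project WF, module GA (written by helper13). -/

namespace Pool.Agent.Helper13.WF.M_GA

open Pool.Agent.Helper98.WF
open Polynomial

theorem stGA : StGA := by
  intro G _ E _ _ q b htor hsymm hb1 hq g g'
  -- first differences
  obtain ⟨D, hD'⟩ : ∃ D : G → G → E, D = fun h a => b (a * h) - b a := ⟨_, rfl⟩
  have hD : ∀ h a, D h a = b (a * h) - b a := fun h a => by rw [hD']
  have sl : ∀ x y z, q (x - y) z = q x z - q y z := fun x y z => by
    rw [map_sub, LinearMap.sub_apply]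
  have sr : ∀ x y z, q x (y - z) = q x y - q x z := fun x y z => by rw [map_sub]
  have al : ∀ x y z, q (x + y) z = q x z + q y z := fun x y z => by
    rw [map_add, LinearMap.add_apply]
  have ar : ∀ x y z, q x (y + z) = q x y + q x z := fun x y z => by rw [map_add]
  have hstar : ∀ h a c, q (D h a - D h c) (D h a - D h c) = 0 := by
    intro h a c
    have h1 := hq (a * h) c a (c * h) (by rw [mul_assoc, mul_comm h c])
    have h2 : b (a * h) + b c - b a - b (c * h) = D h a - D h c := by
      simp only [hD]; abel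
    rw [h2] at h1
    exact h1
  have hstar2 : ∀ h a c, q (D h a) (D h a) + q (D h c) (D h c) = 2 * q (D h a) (D h c) := by
    intro h a c
    have h1 := hstar h a c
    simp only [sl, sr] at h1
    rw [hsymm (D h c) (D h a)] at h1
    linarith
  have htel : ∀ (h c : G) (m : ℕ), ∑ i ∈ Finset.range m, D h (c * h ^ i) = b (c * h ^ m) - b c := by
    intro h c m
    induction m with
    | zero => simp
    | succ n ih =>
      rw [Finset.sum_range_succ, ih]
      simp only [hD]
      rw [pow_succ, mul_assoc]
      abel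
  have hconst : ∀ h a c, q (D h a) (D h a) = q (D h c) (D h c) := by
    intro h a c
    obtain ⟨m, hm, hhm⟩ := htor h
    have hm0 : (m : ℚ) ≠ 0 := by exact_mod_cast hm.ne'
    have key : ∀ a', (m : ℚ) * q (D h a') (D h a')
        = - ∑ i ∈ Finset.range m, q (D h (1 * h ^ i)) (D h (1 * h ^ i)) := by
      intro a'
      have h1 : ∑ i ∈ Finset.range m, (q (D h a') (D h a')
          + q (D h (1 * h ^ i)) (D h (1 * h ^ i))) = 0 := by
        have h2 : ∀ i ∈ Finset.range m, q (D h a') (D h a')
            + q (D h (1 * h ^ i)) (D h (1 * h ^ i)) = 2 * q (D h a') (D h (1 * h ^ i)) :=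
          fun i _ => hstar2 h a' (1 * h ^ i)
        rw [Finset.sum_congr rfl h2, ← Finset.mul_sum, ← map_sum, htel, hhm, mul_one, sub_self,
          map_zero, mul_zero]
      rw [Finset.sum_add_distrib, Finset.sum_const, Finset.card_range, nsmul_eq_mul] at h1
      linarith
    have h3 := (key a).trans (key c).symm
    exact mul_left_cancel₀ hm0 h3
  have hzero : ∀ h a, q (D h a) (D h a) = 0 := by
    intro h a
    obtain ⟨m, hm, hhm⟩ := htor h
    have hm0 : (m : ℚ) ≠ 0 := by exact_mod_cast hm.ne'
    have h1 : ∑ i ∈ Finset.range m, (q (D h a) (D h a)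
        + q (D h (1 * h ^ i)) (D h (1 * h ^ i))) = 0 := by
      have h2 : ∀ i ∈ Finset.range m, q (D h a) (D h a)
          + q (D h (1 * h ^ i)) (D h (1 * h ^ i)) = 2 * q (D h a) (D h (1 * h ^ i)) :=
        fun i _ => hstar2 h a (1 * h ^ i)
      rw [Finset.sum_congr rfl h2, ← Finset.mul_sum, ← map_sum, htel, hhm, mul_one, sub_self,
        map_zero, mul_zero]
    have h2 : ∑ i ∈ Finset.range m, (q (D h a) (D h a)
        + q (D h (1 * h ^ i)) (D h (1 * h ^ i))) = (m : ℚ) * (2 * q (D h a) (D h a)) := by
      have h3 : ∀ i ∈ Finset.range m, q (D h a) (D h a)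
          + q (D h (1 * h ^ i)) (D h (1 * h ^ i)) = 2 * q (D h a) (D h a) := by
        intro i _
        rw [hconst h (1 * h ^ i) a]
        ring
      rw [Finset.sum_congr rfl h3, Finset.sum_const, Finset.card_range, nsmul_eq_mul]
    rw [h2] at h1
    have h4 := (mul_eq_zero.mp h1).resolve_left hm0
    linarith
  have hE : ∀ h a c, q (D h a) (D h c) = 0 := by
    intro h a c
    have := hstar2 h a c
    rw [hzero, hzero] at this
    linarith
  -- polarisation
  have hDD : ∀ h k a, D h (a * k) - D h a = D k (a * h) - D k a := by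
    intro h k a
    simp only [hD]
    rw [mul_right_comm a k h]
    abel
  have hmul : ∀ h k a, D (h * k) a = (D h (a * k) - D h a) + D h a + D k a := by
    intro h k a
    simp only [hD]
    rw [mul_comm h k, ← mul_assoc]
    abel
  have hP : ∀ h k a c, q (D h a) (D k c) + q (D k a) (D h c) = 0 := by
    intro h k a c
    have h1 := hE (h * k) a c
    have e1 : D (h * k) a = D h (a * k) + D k a := by rw [hmul]; abel
    have e2 : D (h * k) c = D k (c * h) + D h c := by rw [hmul, hDD]; abel
    have e3 : D (h * k) c = D h (c * k) + D k c := by rw [hmul]; abel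
    -- first expansion
    rw [e1, e3] at h1
    simp only [al, ar] at h1
    rw [hE h (a * k) (c * k), hE k a c] at h1
    have h2 : q (D h (a * k)) (D k c) = q (D h (a * k) - D h a) (D k c) + q (D h a) (D k c) := by
      rw [sl]; ring
    have h3 : q (D k a) (D h (c * k)) = q (D k a) (D h (c * k) - D h c) + q (D k a) (D h c) := by
      rw [sr]; ring
    have h4 : q (D h (a * k) - D h a) (D k c) = 0 := by
      rw [hDD, sl, hE, hE, sub_self]
    have h5 : q (D k a) (D h (c * k) - D h c) = 0 := by
      rw [hDD, sr, hE, hE, sub_self]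
    rw [h2, h3, h4, h5] at h1
    linarith
  have hP' : ∀ h k a c l, q (D h (a * l) - D h a) (D k c) = - q (D k (a * l) - D k a) (D h c) := by
    intro h k a c l
    have h1 := hP h k (a * l) c
    have h2 := hP h k a c
    rw [sl, sl]
    linarith
  have hT : ∀ h k l a c, q (D h (a * k) - D h a) (D l c) = 0 := by
    intro h k l a c
    have s1 := hP' h l a c k
    have s2 := hP' k h a c l
    have s3 := hP' l k a c h
    rw [hDD l k a] at s1
    rw [hDD h l a] at s2
    rw [hDD k h a] at s3
    linarith
  -- end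
  obtain ⟨m, hm, hgm⟩ := htor g
  have hm0 : (m : ℚ) ≠ 0 := by exact_mod_cast hm.ne'
  have hsum : ∑ i ∈ Finset.range m, D g (1 * g ^ i) = 0 := by
    rw [htel, hgm, mul_one, sub_self]
  have h1 : ∑ i ∈ Finset.range m, q (D g (1 * g ^ i)) (D g' 1) = 0 := by
    have h2 : ∑ i ∈ Finset.range m, q (D g (1 * g ^ i)) (D g' 1)
        = q (∑ i ∈ Finset.range m, D g (1 * g ^ i)) (D g' 1) := by
      rw [map_sum, LinearMap.sum_apply]
    rw [h2, hsum, map_zero, LinearMap.zero_apply]
  have h2 : ∀ i ∈ Finset.range m, q (D g (1 * g ^ i)) (D g' 1) = q (D g 1) (D g' 1) := by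
    intro i _
    have h3 := hT g (g ^ i) g' 1 1
    rw [sl] at h3
    linarith
  rw [Finset.sum_congr rfl h2, Finset.sum_const, Finset.card_range, nsmul_eq_mul] at h1
  have h3 := (mul_eq_zero.mp h1).resolve_left hm0
  simpa [hD, hb1] using h3

end Pool.Agent.Helper13.WF.M_GA
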